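import Pool.Agent.GEN.StmtsZD

set_option autoImplicit false

namespace Pool.Agent.GEN.H77

open PowerSeries Finset Pool.Agent.Helper6_Mono Pool.Agent.Helper30_Simp
  Pool.Agent.Helper30_Simp2 Pool.Agent.GEN

open scoped Classical in
theorem mem_keep {σ : Type} (I : Finset (σ →₀ ℕ)) (K K' : Finset σ) (α : σ →₀ ℕ) :
    α ∈ keep I K K' ↔ α ∈ I ∧ ∀ j ∈ K, j ∉ K' → α j = 0 := by
  unfold keep
  rw [Finset.mem_filter]

open scoped Classical in
theorem side (h1 : DcbStmt) (h2 : RhaStmt) {σ : Type} [Fintype σ] {A : Type} [CommRing A] (X : A)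
    (z : Finset (σ →₀ ℕ) → A) (c : A) (J : Finset σ) (I : Finset (σ →₀ ℕ)) (S P Q : Finset σ)
    (hrel : RelBelow X J z c I) (hSQ : Disjoint S Q) (hSP : Disjoint S P) (hPQ : Disjoint P Q)
    (hQ : Q.Nonempty)
    (once : ∀ α ∈ I, (∑ j ∈ P, α j = 1 ∧ ∑ j ∈ Q, α j = 1) ∨ ∀ j, j ∈ P ∨ j ∈ Q → α j = 0)
    (occQ : ∀ j ∈ Q, ∃ α ∈ I, α j = 1)
    (hJ : Disjoint (S ∪ P) J)
    (hKS : ∀ Q' ⊆ Q, Q'.Nonempty → Q' ≠ Q →
      KS (keep I Q Q') (S ∪ P.filter fun p => ∃ α ∈ I, α p = 1 ∧ ∃ q ∈ Q', α q = 1)) :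
    rho X z I ((S ∪ P) ∪ Q) = c + X ^ Q.card * (rho X z (keep I Q ∅) S - c) +
      (1 - X) ^ Q.card * (rho X z I (S ∪ P) - c) := by
  obtain ⟨_, d2, _, d4, _⟩ := h1 σ I J
  have hdis : Disjoint (S ∪ P) Q := Finset.disjoint_union_left.2 ⟨hSQ, hPQ⟩
  obtain ⟨r1, r2, _⟩ := h2 σ A X z I (S ∪ P) Q hdis
  rw [r1]
  have e : ∀ B ∈ Q.powerset, (1 - X) ^ B.card * X ^ (Q.card - B.card) *
      rho X z (keep I Q B) (S ∪ P) = (1 - X) ^ B.card * X ^ (Q.card - B.card) * c +
      (1 - X) ^ B.card * X ^ (Q.card - B.card) * (rho X z (keep I Q B) (S ∪ P) - c) := by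
    intro B _
    ring
  rw [Finset.sum_congr rfl e, Finset.sum_add_distrib, ← Finset.sum_mul, r2, one_mul]
  rw [Finset.sum_eq_add ∅ Q hQ.ne_empty.symm]
  · rw [Finset.card_empty, pow_zero, one_mul, Nat.sub_zero, Nat.sub_self, pow_zero, mul_one,
      (d2 Q Q).2]
    have e2 : rho X z (keep I Q ∅) (S ∪ P) = rho X z (keep I Q ∅) S := by
      obtain ⟨_, _, r3⟩ := h2 σ A X z (keep I Q ∅) S P hSP
      apply r3
      intro p hp α hα
      rw [mem_keep] at hα
      rcases once α hα.1 with h | h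
      · exfalso
        have h0 : ∑ j ∈ Q, α j = 0 :=
          Finset.sum_eq_zero (fun j hj => hα.2 j hj (Finset.notMem_empty j))
        rw [h0] at h
        exact absurd h.2 (by norm_num)
      · exact h p (Or.inl hp)
    rw [e2]
    ring
  · intro B hB hne
    have hBQ := Finset.mem_powerset.1 hB
    have hBne : B.Nonempty := Finset.nonempty_iff_ne_empty.2 hne.1
    have hks := hKS B hBQ hBne hne.2
    set N := P.filter fun p => ∃ α ∈ I, α p = 1 ∧ ∃ q ∈ B, α q = 1 with hN
    have hNP : N ⊆ P := Finset.filter_subset _ _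
    have hlt : (keep I Q B).card < I.card :=
      d4 Q B (fun j hj => by
        obtain ⟨α, hα, h⟩ := occQ j hj
        exact ⟨α, hα, by rw [h]; norm_num⟩) hBQ hne.2
    have hne' : keep I Q B ≠ I := by
      intro h
      rw [h] at hlt
      exact lt_irrefl _ hlt
    have hdJ : Disjoint (S ∪ N) J :=
      Finset.disjoint_of_subset_left (Finset.union_subset_union_right hNP) hJ
    have hc := hrel (keep I Q B) (S ∪ N) (d2 Q B).1 hne' hdJ hks
    have hd : Disjoint (S ∪ N) (P \ N) := by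
      rw [Finset.disjoint_union_left]
      exact ⟨Finset.disjoint_of_subset_right Finset.sdiff_subset hSP, Finset.disjoint_sdiff⟩
    obtain ⟨_, _, r3⟩ := h2 σ A X z (keep I Q B) (S ∪ N) (P \ N) hd
    have hun : (S ∪ N) ∪ (P \ N) = S ∪ P := by
      rw [Finset.union_assoc, Finset.union_sdiff_of_subset hNP]
    rw [hun] at r3
    have h3 : rho X z (keep I Q B) (S ∪ P) = c := by
      rw [r3, hc]
      intro p hp α hα
      rw [Finset.mem_sdiff] at hp
      rw [mem_keep] at hα
      rcases once α hα.1 with h | h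
      · by_contra hp0
        apply hp.2
        rw [hN, Finset.mem_filter]
        refine ⟨hp.1, α, hα.1, ?_, ?_⟩
        · have := Finset.single_le_sum (f := fun j => α j) (fun j _ => Nat.zero_le _) hp.1
          have h4 := h.1
          omega
        · obtain ⟨q, hq, hq0⟩ : ∃ q ∈ Q, α q ≠ 0 := by
            by_contra hcon
            push Not at hcon
            rw [Finset.sum_eq_zero hcon] at h
            exact absurd h.2 (by norm_num)
          refine ⟨q, ?_, ?_⟩
          · by_contra hqB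
            exact hq0 (hα.2 q hq hqB)
          · have := Finset.single_le_sum (f := fun j => α j) (fun j _ => Nat.zero_le _) hq
            have h4 := h.2
            omega
      · exact h p (Or.inl hp.1)
    rw [h3, sub_self, mul_zero]
  · intro h
    exact absurd (Finset.empty_mem_powerset Q) h
  · intro h
    exact absurd (Finset.mem_powerset_self Q) h

theorem swi (h1 : DcbStmt) (h2 : RhaStmt) (h3 : SwdStmt) : SwiStmt := by
  classical
  intro σ _ A _ X hX z c J I S P Q hrel hcirc hSQ hPSQ hblk hJ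
  obtain ⟨w1, w2, w3⟩ := h3 σ I S P Q hcirc hSQ hPSQ hblk
  have hPS : Disjoint P S := (Finset.disjoint_union_right.1 hPSQ).1
  have hPQ : Disjoint P Q := (Finset.disjoint_union_right.1 hPSQ).2
  have hQne : Q.Nonempty := by
    rw [← Finset.card_pos, ← hblk.card, Finset.card_pos]
    exact hblk.ne
  have hJ1 : Disjoint (S ∪ P) J := (Finset.disjoint_union_left.1 hJ).1
  have hJ2 : Disjoint Q J := (Finset.disjoint_union_left.1 hJ).2
  have hJ3 : Disjoint (S ∪ Q) J :=
    Finset.disjoint_union_left.2 ⟨(Finset.disjoint_union_left.1 hJ1).1, hJ2⟩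
  have s1 := side h1 h2 X z c J I S P Q hrel hSQ hPS.symm hPQ hQne hblk.once hblk.occQ hJ1 w1
  have s2 := side h1 h2 X z c J I S Q P hrel hPS.symm hSQ hPQ.symm hblk.ne
    (fun α hα => by
      rcases hblk.once α hα with h | h
      · exact Or.inl ⟨h.2, h.1⟩
      · exact Or.inr (fun j hj => h j hj.symm)) hblk.occP hJ3 w3
  have hk : keep I Q ∅ = keep I P ∅ := by
    ext α
    rw [mem_keep, mem_keep]
    constructor
    · rintro ⟨hα, h⟩
      refine ⟨hα, fun j hj _ => ?_⟩
      rcases hblk.once α hα with h4 | h4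
      · exfalso
        have h0 : ∑ j ∈ Q, α j = 0 :=
          Finset.sum_eq_zero (fun j hj => h j hj (Finset.notMem_empty j))
        rw [h0] at h4
        exact absurd h4.2 (by norm_num)
      · exact h4 j (Or.inl hj)
    · rintro ⟨hα, h⟩
      refine ⟨hα, fun j hj _ => ?_⟩
      rcases hblk.once α hα with h4 | h4
      · exfalso
        have h0 : ∑ j ∈ P, α j = 0 :=
          Finset.sum_eq_zero (fun j hj => h j hj (Finset.notMem_empty j))
        rw [h0] at h4
        exact absurd h4.1 (by norm_num)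
      · exact h4 j (Or.inr hj)
  have hu : (S ∪ P) ∪ Q = (S ∪ Q) ∪ P := by
    rw [Finset.union_assoc, Finset.union_comm P Q, ← Finset.union_assoc]
  rw [hu, s2, hblk.card, hk] at s1
  have s3 : (1 - X) ^ Q.card * rho X z I (S ∪ P) = (1 - X) ^ Q.card * rho X z I (S ∪ Q) := by
    linear_combination (-1 : A) * s1
  exact (hX.pow Q.card).mul_left_cancel s3

end Pool.Agent.GEN.H77
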