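import Pool.Agent.GEN.StmtsU

set_option autoImplicit false

namespace Pool.Agent.GEN.H77

open MvPolynomial Finset Pool.Agent.Helper6_Mono Pool.Agent.Helper30_Simp
  Pool.Agent.Helper30_Simp2

section

variable {σ A : Type} [CommRing A]

theorem syc_pd_comm (i j : σ) (w : MvPolynomial σ A) :
    pderiv i (pderiv j w) = pderiv j (pderiv i w) := by
  by_cases hij : i = j
  · rw [hij]
  · ext m
    rw [coeff_pderiv, coeff_pderiv, coeff_pderiv, coeff_pderiv, Finsupp.add_apply,
      Finsupp.add_apply, Finsupp.single_eq_of_ne hij, Finsupp.single_eq_of_ne (Ne.symm hij),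
      add_right_comm, add_zero, add_zero]
    ring

theorem syc_perm (v v' : List σ) (h : v.Perm v') (w : MvPolynomial σ A) :
    dWordR v w = dWordR v' w := by
  unfold dWordR
  exact List.Perm.foldr_eq' h (fun a _ b _ c => syc_pd_comm b a c) w

theorem syc_dE (β : σ →₀ ℕ) (i : σ) (w : MvPolynomial σ A) :
    dE (β + Finsupp.single i 1) w = pderiv i (dE β w) := by
  unfold dE
  have h1 : (Finsupp.toMultiset (β + Finsupp.single i 1)).toList.Perm
      (i :: (Finsupp.toMultiset β).toList) := by
    rw [← Multiset.coe_eq_coe, Multiset.coe_toList, ← Multiset.cons_coe, Multiset.coe_toList,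
      map_add, Finsupp.toMultiset_single, one_smul, add_comm, Multiset.singleton_add]
  rw [syc_perm _ _ h1]
  rfl

theorem syc_word_lin (v : List σ) (c : A) (w w' : MvPolynomial σ A) :
    dWordR v (C c * w + w') = C c * dWordR v w + dWordR v w' := by
  induction v with
  | nil => rfl
  | cons i v ih =>
    have h1 : ∀ u : MvPolynomial σ A, dWordR (i :: v) u = pderiv i (dWordR v u) := fun u => rfl
    rw [h1, h1, h1, ih, map_add, pderiv_C_mul]

theorem syc_ext (F G : Sm σ A → MvPolynomial σ A) (hF : ∀ p q, F (p + q) = F p + F q)
    (hG : ∀ p q, G (p + q) = G p + G q)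
    (h : ∀ (m : SY σ →₀ ℕ) (c : A), F (monomial m c) = G (monomial m c)) (p : Sm σ A) :
    F p = G p := by
  induction p using MvPolynomial.induction_on' with
  | monomial m c => exact h m c
  | add p q hp hq => rw [hF, hG, hp, hq]

theorem syc_L0 (p : Sm σ A) : Lop none p = X none * p := by
  unfold Lop
  rw [LinearMap.mulLeft_apply]

theorem syc_L1 (i : σ) (p : Sm σ A) : Lop (some (Sum.inl i)) p = X (some (Sum.inl i)) * p := by
  unfold Lop
  rw [LinearMap.mulLeft_apply]

theorem syc_X {τ : Type} (y : τ) (m : τ →₀ ℕ) (c : A) :
    (X y : MvPolynomial τ A) * monomial m c = monomial (m + Finsupp.single y 1) c := by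
  rw [mul_comm, monomial_add_single, pow_one]

theorem syc_L2 (i : σ) (p : Sm σ A) : Lop (some (Sum.inr i)) p =
    X (some (Sum.inr i)) * p + pderiv (some (Sum.inl i)) p := by
  unfold Lop
  rw [LinearMap.add_apply, LinearMap.mulLeft_apply]
  rfl

theorem syc_deg (y : SY σ) (p : Sm σ A) : (pderiv y p).totalDegree ≤ p.totalDegree := by
  apply Finset.sup_le
  intro m hm
  rw [mem_support_iff, coeff_pderiv] at hm
  have h1 : m + Finsupp.single y 1 ∈ p.support := by
    rw [mem_support_iff]
    exact fun h => hm (by rw [h, zero_mul])
  have h2 := le_totalDegree h1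
  refine le_trans ?_ h2
  rw [Finsupp.sum_add_index' (fun _ => rfl) (fun _ _ _ => rfl)]
  exact Nat.le_add_right _ _

end

theorem syc : SycStmt := by
  intro σ A _ l w p
  refine ⟨?_, ?_, ?_, ?_, ?_, ?_⟩
  · refine syc_ext (fun p => act l w (Lop none p)) (fun p => C l * act l w p)
      (fun p q => by simp only [map_add]) (fun p q => by simp only [map_add, mul_add]) ?_ p
    intro m c
    simp only [syc_L0]
    have h1 : (X none : Sm σ A) * monomial m c = monomial (m + Finsupp.single none 1) c := by
      exact syc_X _ _ _
    rw [h1, act_monomial, act_monomial]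
    have h2 : xp (m + Finsupp.single none 1) = xp m := by
      ext i; simp
    have h3 : dp (m + Finsupp.single none 1) = dp m := by
      ext i; simp
    rw [h2, h3, Finsupp.add_apply, Finsupp.single_eq_same, pow_succ, C_mul]
    ring
  · intro i
    refine syc_ext (fun p => act l w (Lop (some (Sum.inl i)) p)) (fun p => X i * act l w p)
      (fun p q => by simp only [map_add]) (fun p q => by simp only [map_add, mul_add]) ?_ p
    intro m c
    simp only [syc_L1]
    have h1 : (X (some (Sum.inl i)) : Sm σ A) * monomial m c =
        monomial (m + Finsupp.single (some (Sum.inl i)) 1) c := by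
      exact syc_X _ _ _
    rw [h1, act_monomial, act_monomial]
    have h2 : xp (m + Finsupp.single (some (Sum.inl i)) 1) = xp m + Finsupp.single i 1 := by
      classical
      ext j
      rw [Finsupp.add_apply, xp_apply, xp_apply, Finsupp.add_apply, Finsupp.single_apply,
        Finsupp.single_apply]
      simp
    have h3 : dp (m + Finsupp.single (some (Sum.inl i)) 1) = dp m := by
      ext i; simp
    have h4 : (m + Finsupp.single (some (Sum.inl i)) 1 : SY σ →₀ ℕ) none = m none := by simp
    have h5 : (monomial (xp m + Finsupp.single i 1) (1 : A)) = monomial (xp m) 1 * X i := by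
      rw [monomial_add_single]; simp
    rw [h2, h3, h4, h5]
    ring
  · intro i
    refine syc_ext (fun p => act l w (Lop (some (Sum.inr i)) p)) (fun p => pderiv i (act l w p))
      (fun p q => by simp only [map_add]) (fun p q => by simp only [map_add]) ?_ p
    intro m c
    simp only [syc_L2]
    have h1 : (X (some (Sum.inr i)) : Sm σ A) * monomial m c =
        monomial (m + Finsupp.single (some (Sum.inr i)) 1) c := by
      exact syc_X _ _ _
    rw [h1, map_add, pderiv_monomial, act_monomial, act_monomial, act_monomial]
    have h2 : xp (m + Finsupp.single (some (Sum.inr i)) 1) = xp m := by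
      ext i; simp
    have h3 : dp (m + Finsupp.single (some (Sum.inr i)) 1) = dp m + Finsupp.single i 1 := by
      classical
      ext j
      rw [Finsupp.add_apply, dp_apply, dp_apply, Finsupp.add_apply, Finsupp.single_apply,
        Finsupp.single_apply]
      simp
    have h4 : (m + Finsupp.single (some (Sum.inr i)) 1 : SY σ →₀ ℕ) none = m none := by simp
    have h5 : xp (m - Finsupp.single (some (Sum.inl i)) 1) = xp m - Finsupp.single i 1 := by
      classical
      ext j
      rw [Finsupp.tsub_apply, xp_apply, xp_apply, Finsupp.tsub_apply, Finsupp.single_apply,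
        Finsupp.single_apply]
      simp
    have h6 : dp (m - Finsupp.single (some (Sum.inl i)) 1) = dp m := by
      ext i; simp
    have h7 : (m - Finsupp.single (some (Sum.inl i)) 1 : SY σ →₀ ℕ) none = m none := by simp
    have h9 : pderiv i (C (l ^ m none) * monomial (xp m) (1 : A) * dE (dp m) w) =
        C (l ^ m none) * (pderiv i (monomial (xp m) (1 : A)) * dE (dp m) w +
          monomial (xp m) (1 : A) * pderiv i (dE (dp m) w)) := by
      rw [mul_assoc, pderiv_C_mul, pderiv_mul]
    rw [h2, h3, h4, h5, h6, h7, syc_dE, pderiv_C_mul, h9, pderiv_monomial, one_mul, xp_apply,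
      C_mul]
    have h8 : (monomial (xp m - Finsupp.single i 1)) ((m (some (Sum.inl i)) : ℕ) : A) =
        C ((m (some (Sum.inl i)) : ℕ) : A) * monomial (xp m - Finsupp.single i 1) (1 : A) := by
      rw [C_mul_monomial, mul_one]
    rw [h8]
    ring
  · intro y
    match y with
    | none =>
      have h1 : Lop none p - X none * p = 0 := by
        rw [syc_L0, sub_self]
      rw [h1, totalDegree_zero]; exact Nat.zero_le _
    | some (Sum.inl i) =>
      have h1 : Lop (some (Sum.inl i)) p - X (some (Sum.inl i)) * p = 0 := by
        rw [syc_L1, sub_self]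
      rw [h1, totalDegree_zero]; exact Nat.zero_le _
    | some (Sum.inr i) =>
      have h1 : Lop (some (Sum.inr i)) p - X (some (Sum.inr i)) * p =
          pderiv (some (Sum.inl i)) p := by
        rw [syc_L2, add_sub_cancel_left]
      rw [h1]
      exact syc_deg _ _
  · intro c w'
    induction p using MvPolynomial.induction_on' with
    | monomial m a =>
      rw [act_monomial, act_monomial, act_monomial]
      unfold dE
      rw [syc_word_lin]
      ring
    | add p q hp hq =>
      rw [map_add, map_add, map_add, hp, hq]
      ring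
  · have h1 : (1 : Sm σ A) = monomial 0 1 := rfl
    rw [h1, act_monomial]
    have h2 : xp (0 : SY σ →₀ ℕ) = 0 := by ext; simp
    have h3 : dp (0 : SY σ →₀ ℕ) = 0 := by ext; simp
    rw [h2, h3]
    unfold dE dWordR
    simp

end Pool.Agent.GEN.H77
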