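import Pool.Agent.GEN.StmtsT

set_option autoImplicit false

namespace Pool.Agent.GEN.H77

open MvPolynomial Pool.Agent.Helper6_Mono Pool.Agent.Helper30_Simp Pool.Agent.Helper30_Simp2
  Pool.Agent.Helper8_CR Pool.Agent.GEN

theorem pderiv_resc {σ : Type} (t : σ → ℂ) (Φ : MvPolynomial σ ℂ ≃ₐ[ℂ] MvPolynomial σ ℂ)
    (hΦ : ∀ i, Φ (X i) = C (t i) * X i) (j : σ) (g : MvPolynomial σ ℂ) :
    pderiv j (Φ g) = C (t j) * Φ (pderiv j g) := by
  classical
  induction g using MvPolynomial.induction_on with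
  | C c =>
    have h : Φ (C c) = C c := by
      have := Φ.commutes c
      rwa [MvPolynomial.algebraMap_eq] at this
    rw [h, pderiv_C, map_zero, mul_zero]
  | add p q hp hq => rw [map_add, map_add, map_add, map_add, hp, hq, mul_add]
  | mul_X p i hp =>
    rw [map_mul, Derivation.leibniz, Derivation.leibniz, hΦ, Derivation.leibniz, hp]
    simp only [smul_eq_mul, map_add, map_mul, hΦ, pderiv_C, pderiv_X]
    by_cases hij : i = j
    · subst hij
      rw [Pi.single_eq_same, map_one]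
      ring
    · rw [Pi.single_eq_of_ne hij, map_zero]
      ring

theorem tsi : TsiStmt := by
  intro σ _ a t Φ ha ht hΦ g hg
  unfold TorusSmooth at hg ⊢
  rw [Ideal.mem_radical_iff] at hg ⊢
  obtain ⟨n, hn⟩ := hg
  refine ⟨n, ?_⟩
  set J := Ideal.span ({g} ∪ Set.range fun j => pderiv j g) with hJ
  have hgJ : g ∈ J := Ideal.subset_span (Or.inl rfl)
  have hdJ : ∀ j, pderiv j g ∈ J := fun j => Ideal.subset_span (Or.inr ⟨j, rfl⟩)
  have hC : ∀ c : ℂ, Φ.symm (C c) = C c := by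
    intro c
    have := Φ.symm.commutes c
    rwa [MvPolynomial.algebraMap_eq] at this
  have hle : Ideal.span ({C a * Φ g} ∪ Set.range fun j => pderiv j (C a * Φ g)) ≤
      J.comap (Φ.symm : MvPolynomial σ ℂ →ₐ[ℂ] MvPolynomial σ ℂ) := by
    rw [Ideal.span_le]
    rintro y (hy | ⟨j, rfl⟩)
    · rw [Set.mem_singleton_iff] at hy
      rw [hy]
      change Φ.symm (C a * Φ g) ∈ J
      rw [map_mul, Φ.symm_apply_apply]
      exact J.mul_mem_left _ hgJ
    · change Φ.symm (pderiv j (C a * Φ g)) ∈ J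
      rw [pderiv_C_mul, pderiv_resc t Φ hΦ j g, map_mul, map_mul,
        Φ.symm_apply_apply]
      exact J.mul_mem_left _ (J.mul_mem_left _ (hdJ j))
  have h1 : Φ.symm ((∏ i, X i) ^ n) ∈ J := hle hn
  have hX : ∀ i, Φ.symm (X i) = C (t i)⁻¹ * X i := by
    intro i
    apply Φ.injective
    have hCc : Φ (C (t i)⁻¹) = C (t i)⁻¹ := by
      have := Φ.commutes (t i)⁻¹
      rwa [MvPolynomial.algebraMap_eq] at this
    rw [Φ.apply_symm_apply, map_mul, hΦ, hCc, ← mul_assoc, ← C_mul, inv_mul_cancel₀ (ht i), C_1,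
      one_mul]
  have h2 : Φ.symm ((∏ i, X i) ^ n) = C ((∏ i, (t i)⁻¹) ^ n) * (∏ i, X i) ^ n := by
    rw [map_pow, map_prod, Finset.prod_congr rfl (fun i _ => hX i), Finset.prod_mul_distrib,
      mul_pow, ← map_prod, ← map_pow]
  rw [h2] at h1
  have h3 : (∏ i, X i : MvPolynomial σ ℂ) ^ n =
      C ((∏ i, t i) ^ n) * (C ((∏ i, (t i)⁻¹) ^ n) * (∏ i, X i) ^ n) := by
    rw [← mul_assoc, ← C_mul, ← mul_pow, ← Finset.prod_mul_distrib,
      Finset.prod_congr rfl (fun i _ => mul_inv_cancel₀ (ht i)), Finset.prod_const_one, one_pow,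
      C_1, one_mul]
  rw [h3]
  exact J.mul_mem_left _ h1

end Pool.Agent.GEN.H77
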